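import Pool.Agent.H110R3.UF.StmtsB

/-! TaskB1 of project H110-UFB: multiplicativity of insertions. -/

open CategoryTheory MonoidalCategory CategoryTheory.Limits

universe v u

namespace Pool.Agent.H42R3.UF

open Pool.Agent.H110R3.UF

/-- naturality of the insertion -/
lemma ins_nat {D : Type u} [Category.{v} D] [MonoidalCategory D] {A B : D} (f : A ⟶ B) (W W' : D)
    (r : 𝟙_ D ⟶ W ⊗ W') : f ≫ ins B W W' r = ins A W W' r ≫ ((f ▷ W) ▷ W') := by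
  unfold ins
  rw [rightUnitor_inv_naturality_assoc, ← whisker_exchange_assoc]
  simp

lemma b1_key {D : Type u} [Category.{v} D] [MonoidalCategory D] {X : D} (Y W W' : D)
    (s : X ⊗ Y ⟶ Y ⊗ X) (r : 𝟙_ D ⟶ W ⊗ W') :
    s ≫ (Y ◁ ins X W W' r) =
      (X ◁ ins Y W W' r) ≫ ((α_ X (Y ⊗ W) W').inv ≫ ((α_ X Y W).inv ▷ W')) ≫
        ((s ▷ W) ▷ W') ≫ ((α_ Y X W).hom ▷ W') ≫ (α_ Y (X ⊗ W) W').hom := by
  have h1 : Y ◁ ins X W W' r = ins (Y ⊗ X) W W' r ≫ ((α_ Y X W).hom ▷ W') ≫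
      (α_ Y (X ⊗ W) W').hom := by
    unfold ins
    monoidal
  have h2 : (X ◁ ins Y W W' r) ≫ ((α_ X (Y ⊗ W) W').inv ≫ ((α_ X Y W).inv ▷ W')) =
      ins (X ⊗ Y) W W' r := by
    unfold ins
    monoidal
  rw [h1, reassoc_of% (ins_nat s W W' r), ← h2]
  simp only [Category.assoc]

theorem taskB1 : TaskB1.{v, u} := by
  intro D _ _ X H Y Y' W W' R r
  have key := b1_key Y W W' (H.σ Y).hom r
  have e1 : (((H.σ Y).hom ▷ Y') ≫ ((Y ◁ insv H W W' r) ▷ Y')) =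
      (((X ◁ ins Y W W' r) ≫ ((α_ X (Y ⊗ W) W').inv ≫ ((α_ X Y W).inv ▷ W')) ≫
        (((H.σ Y).hom ▷ W) ▷ W') ≫ ((α_ Y X W).hom ▷ W') ≫ (α_ Y (X ⊗ W) W').hom) ▷ Y') ≫
        ((Y ◁ ((H.σ W).hom ▷ W')) ▷ Y') := by
    rw [← key]
    unfold insv
    simp only [comp_whiskerRight, whiskerLeft_comp, Category.assoc]
  have e2 : insv H Y Y' R ≫ ((Y ◁ insv H W W' r) ▷ Y') ≫ reas X Y Y' W W' =
      ins X Y Y' R ≫ (((H.σ Y).hom ▷ Y') ≫ ((Y ◁ insv H W W' r) ▷ Y')) ≫ reas X Y Y' W W' := by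
    conv_lhs => unfold insv
    simp only [Category.assoc]
    rfl
  rw [e2, e1]
  unfold insv nest reas ins
  rw [H.hex]
  generalize (H.σ Y).hom = a
  generalize (H.σ W).hom = b
  monoidal

end Pool.Agent.H42R3.UF
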