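import Pool.Agent.H110R3.UF.StmtsB

/-! TaskB2 of H110-UFB (by helper957). -/

open CategoryTheory MonoidalCategory
open Pool.Agent.H110R3.UF

universe v u

namespace Pool.Agent.H957R3.UF

section
variable {D : Type u} [Category.{v} D] [Preadditive D] [Linear ℂ D] [MonoidalCategory D]
  (A : CStarTensor D)

lemma dag_one (X : D) : A.dag (𝟙 X) = 𝟙 X := by
  have h := A.dag_comp (A.dag (𝟙 X)) (𝟙 X)
  rw [Category.comp_id, A.dag_dag, Category.comp_id] at h
  exact h.symm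

lemma dag_whiskerRight {X Y : D} (f : X ⟶ Y) (Z : D) : A.dag (f ▷ Z) = A.dag f ▷ Z := by
  rw [← tensorHom_id, A.dag_tensor, dag_one, tensorHom_id]

lemma dag_whiskerLeft (Z : D) {X Y : D} (f : X ⟶ Y) : A.dag (Z ◁ f) = Z ◁ A.dag f := by
  rw [← id_tensorHom, A.dag_tensor, dag_one, id_tensorHom]

lemma dag_assoc_inv (X Y Z : D) : A.dag (α_ X Y Z).inv = (α_ X Y Z).hom := by
  rw [← A.dag_associator, A.dag_dag]

lemma dag_rho_inv (X : D) : A.dag (ρ_ X).inv = (ρ_ X).hom := by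
  rw [← A.dag_rightUnitor, A.dag_dag]

lemma reas_dag (X Y Y' W W' : D) :
    reas X Y Y' W W' ≫ A.dag (reas X Y Y' W W') = 𝟙 _ := by
  unfold reas
  simp only [A.dag_comp, dag_whiskerRight, dag_assoc_inv, A.dag_associator, Category.assoc,
    Iso.hom_inv_id_assoc]
  rw [← comp_whiskerRight]
  simp

variable [MonoidalPreadditive D] [MonoidalLinear ℂ D]

lemma ins_dag (X W W' : D) (r : 𝟙_ D ⟶ W ⊗ W') (c : ℂ) (h : r ≫ A.dag r = c • 𝟙 (𝟙_ D)) :
    ins X W W' r ≫ A.dag (ins X W W' r) = c • 𝟙 X := by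
  unfold ins
  simp only [A.dag_comp, dag_whiskerLeft, dag_assoc_inv, dag_rho_inv, Category.assoc,
    Iso.inv_hom_id_assoc]
  rw [← whiskerLeft_comp_assoc, h, MonoidalLinear.whiskerLeft_smul, whiskerLeft_id,
    Linear.smul_comp, Category.id_comp, Linear.comp_smul, Iso.inv_hom_id]

lemma nest_dag (Y Y' W W' : D) (R : 𝟙_ D ⟶ Y ⊗ Y') (r : 𝟙_ D ⟶ W ⊗ W') (c : ℂ)
    (h : r ≫ A.dag r = c • 𝟙 (𝟙_ D)) :
    nest Y Y' W W' R r ≫ A.dag (nest Y Y' W W' R r) = c • (R ≫ A.dag R) := by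
  unfold nest
  simp only [A.dag_comp, dag_whiskerRight, A.dag_associator, Category.assoc,
    Iso.hom_inv_id_assoc]
  rw [← comp_whiskerRight_assoc, ins_dag A Y W W' r c h, MonoidalLinear.smul_whiskerRight,
    id_whiskerRight, Linear.smul_comp, Category.id_comp, Linear.comp_smul]

end

theorem taskB2 : TaskB2.{v, u} := by
  intro hB1 D _ _ _ _ _ _ A X H Y Y' W W' R r
  refine ⟨fun c h => ?_, fun c h => nest_dag A Y Y' W W' R r c h,
    fun c h => ins_dag A X W W' r c h⟩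
  rw [hB1 D X H Y Y' W W' R r]
  simp only [A.dag_comp, dag_whiskerRight, dag_whiskerLeft, Category.assoc]
  rw [← Category.assoc (reas X Y Y' W W'), reas_dag, Category.id_comp,
    ← comp_whiskerRight_assoc, ← whiskerLeft_comp, h, MonoidalLinear.whiskerLeft_smul,
    MonoidalLinear.smul_whiskerRight, whiskerLeft_id, id_whiskerRight, Linear.smul_comp,
    Category.id_comp, Linear.comp_smul]

end Pool.Agent.H957R3.UF
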