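import Pool.Agent.H110R3.UF.StmtsB

set_option autoImplicit false

open CategoryTheory MonoidalCategory

universe v u

namespace Pool.Agent.H110R3.UF.B3h275

open Pool.Agent.H110R3.UF

section
variable {D : Type u} [Category.{v} D] [Preadditive D] [Linear ℂ D]
  [MonoidalCategory D] (A : CStarTensor D)

theorem dag_id (X : D) : A.dag (𝟙 X) = 𝟙 X := by
  have h := A.dag_comp (𝟙 X) (A.dag (𝟙 X))
  rw [Category.id_comp, A.dag_dag, Category.id_comp] at h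
  exact h.symm

theorem dag_wr {X Y : D} (f : X ⟶ Y) (Z : D) : A.dag (f ▷ Z) = A.dag f ▷ Z := by
  rw [← tensorHom_id, A.dag_tensor, dag_id, tensorHom_id]

theorem dag_wl {X Y : D} (Z : D) (f : X ⟶ Y) : A.dag (Z ◁ f) = Z ◁ A.dag f := by
  rw [← id_tensorHom, A.dag_tensor, dag_id, id_tensorHom]

theorem dag_ainv (X Y Z : D) : A.dag (α_ X Y Z).inv = (α_ X Y Z).hom := by
  rw [← A.dag_associator, A.dag_dag]

theorem dag_rinv (X : D) : A.dag (ρ_ X).inv = (ρ_ X).hom := by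
  rw [← A.dag_rightUnitor, A.dag_dag]

variable [MonoidalPreadditive D] [MonoidalLinear ℂ D]

theorem ins_dag (X W W' : D) (r : 𝟙_ D ⟶ W ⊗ W') (c : ℂ) (h : r ≫ A.dag r = c • 𝟙 (𝟙_ D)) :
    ins X W W' r ≫ A.dag (ins X W W' r) = c • 𝟙 X := by
  unfold ins
  rw [A.dag_comp, A.dag_comp, dag_wl, dag_ainv, dag_rinv]
  simp only [Category.assoc, Iso.inv_hom_id_assoc]
  rw [← whiskerLeft_comp_assoc, h]
  simp [MonoidalLinear.whiskerLeft_smul]

theorem sub_wr {X Y : D} (f g : X ⟶ Y) (Z : D) : (f - g) ▷ Z = f ▷ Z - g ▷ Z := by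
  apply eq_sub_of_add_eq
  rw [← MonoidalPreadditive.add_whiskerRight, sub_add_cancel]

omit [MonoidalPreadditive D] [MonoidalLinear ℂ D] in
/-- claim 1 -/
theorem claim1 {X W W₁ : D} (σW : X ⊗ W ⟶ W ⊗ X) (σ₁ : X ⊗ W₁ ⟶ W₁ ⊗ X) (e : W₁ ⟶ W) (M : ℂ)
    (hn : (X ◁ A.dag e) ≫ σ₁ = σW ≫ (A.dag e ▷ X)) :
    (X ◁ A.dag e) ≫ (M • 𝟙 _ - σ₁ ≫ A.dag σ₁) ≫ (X ◁ e) =
      M • (X ◁ (A.dag e ≫ e)) - σW ≫ ((A.dag e ≫ e) ▷ X) ≫ A.dag σW := by
  have hn2 : A.dag σ₁ ≫ (X ◁ e) = (e ▷ X) ≫ A.dag σW := by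
    have := congrArg A.dag hn
    rw [A.dag_comp, A.dag_comp, dag_wl, dag_wr, A.dag_dag] at this
    exact this
  rw [Preadditive.sub_comp, Preadditive.comp_sub]
  congr 1
  · rw [Linear.smul_comp, Category.id_comp, Linear.comp_smul, ← whiskerLeft_comp]
  · rw [Category.assoc, hn2, ← Category.assoc, hn, comp_whiskerRight]
    simp only [Category.assoc]

end

theorem taskB3 : TaskB3.{v, u} := by
  intro D _ _ _ _ _ _ A n T hN a H
  choose Mb Zb gb hMb hgb using fun b => hN.bound _ _ (H.σ (T b)).hom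
  refine ⟨∑ b, Mb b, ?_⟩
  intro W W' r c c' hc hc'
  obtain ⟨m, s, e, he⟩ := hN.dec W
  have hMle : ∀ b, Mb b ≤ ∑ b, Mb b := fun b =>
    Finset.single_le_sum (f := Mb) (fun i _ => hMb i) (Finset.mem_univ b)
  generalize (∑ b, Mb b) = M at hMle
  have hu := ins_dag A (T a) W W' r c hc
  have hv : insv H W W' r = ins (T a) W W' r ≫ ((H.σ W).hom ▷ W') := rfl
  rw [hv] at hc'
  generalize ins (T a) W W' r = uu at hu hc'
  let h : ∀ i, T a ⟶ (T a ⊗ T (s i)) ⊗ W' := fun i => uu ≫ ((T a ◁ A.dag (e i)) ▷ W')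
  let k : ∀ i, T a ⟶ Zb (s i) ⊗ W' := fun i => h i ≫ (gb (s i) ▷ W')
  have hh : ∀ i, ∃ t : ℂ, h i ≫ A.dag (h i) = t • 𝟙 _ ∧ 0 ≤ t.re := by
    intro i
    obtain ⟨t, ht⟩ := hN.scal a (h i ≫ A.dag (h i))
    exact ⟨t, ht, (hN.nonneg a _ (h i) t ht).1⟩
  have hk : ∀ i, ∃ t : ℂ, k i ≫ A.dag (k i) = t • 𝟙 _ ∧ 0 ≤ t.re := by
    intro i
    obtain ⟨t, ht⟩ := hN.scal a (k i ≫ A.dag (k i))
    exact ⟨t, ht, (hN.nonneg a _ (k i) t ht).1⟩
  choose t ht ht0 using hh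
  choose t' ht' ht0' using hk
  have hdh : ∀ i, A.dag (h i) = ((T a ◁ e i) ▷ W') ≫ A.dag uu := by
    intro i
    show A.dag (uu ≫ ((T a ◁ A.dag (e i)) ▷ W')) = _
    rw [A.dag_comp, dag_wr, dag_wl, A.dag_dag]
  have hdk : ∀ i, A.dag (k i) = (A.dag (gb (s i)) ▷ W') ≫ ((T a ◁ e i) ▷ W') ≫ A.dag uu := by
    intro i
    show A.dag (h i ≫ (gb (s i) ▷ W')) = _
    rw [A.dag_comp, dag_wr, hdh]
  let q : Fin m → (T a ⊗ W ⟶ T a ⊗ W) := fun i =>
    (T a ◁ A.dag (e i)) ≫ ((M : ℂ) • 𝟙 _ - (H.σ (T (s i))).hom ≫ A.dag (H.σ (T (s i))).hom) ≫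
      (T a ◁ e i)
  have claim2 : ∑ i, q i = (M : ℂ) • 𝟙 _ - (H.σ W).hom ≫ A.dag (H.σ W).hom := by
    have h1 : ∀ i, q i = (M : ℂ) • (T a ◁ (A.dag (e i) ≫ e i)) -
        (H.σ W).hom ≫ ((A.dag (e i) ≫ e i) ▷ T a) ≫ A.dag (H.σ W).hom := fun i =>
      claim1 A (H.σ W).hom (H.σ (T (s i))).hom (e i) M (H.nat (A.dag (e i)))
    rw [Finset.sum_congr rfl fun i _ => h1 i, Finset.sum_sub_distrib, ← Finset.smul_sum,
      ← Preadditive.comp_sum, ← Preadditive.sum_comp, ← whiskerLeft_sum, ← sum_whiskerRight, he]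
    simp
  have claim3 : ∀ i, ((M - Mb (s i) : ℝ) : ℂ) • (h i ≫ A.dag (h i)) + k i ≫ A.dag (k i) =
      uu ≫ (q i ▷ W') ≫ A.dag uu := by
    intro i
    rw [hdk, hdh]
    have e1 : k i = uu ≫ ((T a ◁ A.dag (e i)) ▷ W') ≫ (gb (s i) ▷ W') := by
      show (uu ≫ ((T a ◁ A.dag (e i)) ▷ W')) ≫ (gb (s i) ▷ W') = _
      rw [Category.assoc]
    have e2 : h i = uu ≫ ((T a ◁ A.dag (e i)) ▷ W') := rfl
    rw [e1, e2]
    simp only [Category.assoc]
    rw [← comp_whiskerRight_assoc (gb (s i)) (A.dag (gb (s i))), ← hgb]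
    simp only [q]
    have e3 : ((M : ℂ) • 𝟙 (T a ⊗ T (s i)) -
        (H.σ (T (s i))).hom ≫ A.dag (H.σ (T (s i))).hom) =
        ((M - Mb (s i) : ℝ) : ℂ) • 𝟙 _ + ((Mb (s i) : ℂ) • 𝟙 _ -
          (H.σ (T (s i))).hom ≫ A.dag (H.σ (T (s i))).hom) := by
      rw [← add_sub_assoc, ← add_smul]
      congr 2
      push_cast
      ring
    rw [e3, Preadditive.add_comp, Preadditive.comp_add, MonoidalPreadditive.add_whiskerRight,
      Preadditive.add_comp, Preadditive.comp_add]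
    congr 1
    · simp [MonoidalLinear.smul_whiskerRight]
    · simp only [comp_whiskerRight, Category.assoc]
  have claim4 : uu ≫ ((∑ i, q i) ▷ W') ≫ A.dag uu = ((M : ℂ) * c - c') • 𝟙 (T a) := by
    rw [A.dag_comp, dag_wr] at hc'
    rw [claim2, sub_smul, mul_smul, ← hu, ← hc']
    rw [sub_wr, Preadditive.sub_comp, Preadditive.comp_sub]
    congr 1
    · rw [MonoidalLinear.smul_whiskerRight, id_whiskerRight, Linear.smul_comp,
        Linear.comp_smul, Category.id_comp]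
    · simp only [comp_whiskerRight, Category.assoc]
  have key : ((M : ℂ) * c - c') • 𝟙 (T a) =
      (∑ i, (((M - Mb (s i) : ℝ) : ℂ) * t i + t' i)) • 𝟙 (T a) := by
    rw [← claim4, sum_whiskerRight, Preadditive.sum_comp, Preadditive.comp_sum, Finset.sum_smul]
    refine Finset.sum_congr rfl fun i _ => ?_
    rw [← claim3 i, ht i, ht' i, add_smul, mul_smul]
  have hs : (M : ℂ) * c - c' = ∑ i, (((M - Mb (s i) : ℝ) : ℂ) * t i + t' i) := by
    have h0 : ((M : ℂ) * c - c' - ∑ i, (((M - Mb (s i) : ℝ) : ℂ) * t i + t' i)) • 𝟙 (T a) = 0 := by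
      rw [sub_smul, key, sub_self]
    rcases smul_eq_zero.1 h0 with h1 | h1
    · exact sub_eq_zero.1 h1
    · exact absurd h1 (hN.ne a)
  have hre := congrArg Complex.re hs
  rw [Complex.re_sum] at hre
  have hpos : 0 ≤ ∑ i, (((M - Mb (s i) : ℝ) : ℂ) * t i + t' i).re := by
    refine Finset.sum_nonneg fun i _ => ?_
    rw [Complex.add_re, Complex.re_ofReal_mul]
    have := mul_nonneg (sub_nonneg.2 (hMle (s i))) (ht0 i)
    have := ht0' i
    linarith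
  rw [← hre, Complex.sub_re, Complex.re_ofReal_mul] at hpos
  linarith

end Pool.Agent.H110R3.UF.B3h275
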