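import Pool.Agent.H110R3.UF.StmtsB

/-! B4 of the project H110-UFB: comparison of the norms of the insertions. -/

open CategoryTheory MonoidalCategory CategoryTheory.Limits

universe v u

namespace Pool.Agent.H741R4.UF

open Pool.Agent.H110R3.UF

/-- If `y ^ (k+1) ≤ M * x ^ (k+1)` for all `k`, then `y ≤ x`. -/
theorem le_of_pow_le_mul (x y M : ℝ) (hx : 0 ≤ x) (_hy : 0 ≤ y)
    (h : ∀ k : ℕ, y ^ (k + 1) ≤ M * x ^ (k + 1)) : y ≤ x := by
  by_contra hlt
  push Not at hlt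
  rcases hx.eq_or_lt with h0 | h0
  · have h1 := h 0
    subst h0
    simp at h1
    linarith
  · have hq : 1 < y / x := (one_lt_div h0).2 hlt
    obtain ⟨k, hk⟩ := pow_unbounded_of_one_lt M hq
    have h1 := h k
    have h2 : (y / x) ^ (k + 1) ≤ M := by
      rw [div_pow, div_le_iff₀ (pow_pos h0 _)]
      exact h1
    have h3 : (y / x) ^ k ≤ (y / x) ^ (k + 1) := pow_le_pow_right₀ hq.le (Nat.le_succ k)
    linarith

theorem b4_aux (h1 : TaskB1.{v, u}) : TaskB4.{v, u} := by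
  intro h2 h3 D _ _ _ _ _ _ A n T hN a H Y Y' R c c' hc hc'
  have key : ∀ k : ℕ, ∃ (W W' : D) (r : 𝟙_ D ⟶ W ⊗ W'),
      r ≫ A.dag r = (c ^ (k + 1)) • 𝟙 (𝟙_ D) ∧
      insv H W W' r ≫ A.dag (insv H W W' r) = (c' ^ (k + 1)) • 𝟙 (T a) := by
    intro k
    induction k with
    | zero => exact ⟨Y, Y', R, by simpa using hc, by simpa using hc'⟩
    | succ k ih =>
      obtain ⟨W, W', r, hr, hr'⟩ := ih
      obtain ⟨p1, p2, _⟩ := h2 h1 D A (T a) H Y Y' W W' R r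
      refine ⟨Y ⊗ W, W' ⊗ Y', nest Y Y' W W' R r, ?_, ?_⟩
      · rw [p2 _ hr, hc, smul_smul, pow_succ c (k + 1)]
      · rw [p1 _ hr', hc', smul_smul, pow_succ c' (k + 1)]
  obtain ⟨M, hM⟩ := h3 D A n T hN a H
  obtain ⟨hcn, hci⟩ := hN.nonneg1 _ R c hc
  obtain ⟨hcn', hci'⟩ := hN.nonneg a _ (insv H Y Y' R) c' hc'
  have e1 : c = ((c.re : ℝ) : ℂ) := by
    apply Complex.ext <;> simp [hci]
  have e2 : c' = ((c'.re : ℝ) : ℂ) := by
    apply Complex.ext <;> simp [hci']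
  refine le_of_pow_le_mul c.re c'.re M hcn hcn' fun k => ?_
  obtain ⟨W, W', r, hr, hr'⟩ := key k
  have h := hM W W' r _ _ hr hr'
  rw [e1, e2, ← Complex.ofReal_pow, ← Complex.ofReal_pow, Complex.ofReal_re,
    Complex.ofReal_re] at h
  exact h

end Pool.Agent.H741R4.UF
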