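import Pool.Agent.H110R3.UF.StmtsB

set_option autoImplicit false

open CategoryTheory MonoidalCategory CategoryTheory.Limits

universe v u

namespace Pool.Agent.H110R3.UF.B5X448

open Pool.Agent.H110R3.UF

variable {D : Type u} [Category.{v} D] [Preadditive D] [Linear ℂ D] [MonoidalCategory D]

theorem dag_id (A : CStarTensor D) (X : D) : A.dag (𝟙 X) = 𝟙 X := by
  have h : A.dag (A.dag (𝟙 X) ≫ 𝟙 X) = A.dag (𝟙 X) ≫ A.dag (A.dag (𝟙 X)) := A.dag_comp _ _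
  rw [Category.comp_id, A.dag_dag, Category.comp_id] at h
  exact h.symm

theorem dag_wr (A : CStarTensor D) {X Y : D} (f : X ⟶ Y) (Z : D) :
    A.dag (f ▷ Z) = A.dag f ▷ Z := by
  rw [← tensorHom_id, A.dag_tensor, dag_id, tensorHom_id]

theorem dag_wl (A : CStarTensor D) {X Y : D} (f : X ⟶ Y) (Z : D) :
    A.dag (Z ◁ f) = Z ◁ A.dag f := by
  rw [← id_tensorHom, A.dag_tensor, dag_id, id_tensorHom]

theorem dag_assoc_inv (A : CStarTensor D) (X Y Z : D) :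
    A.dag (α_ X Y Z).inv = (α_ X Y Z).hom := by
  rw [← A.dag_associator, A.dag_dag]

/-- The adjoint of an isomorphism. -/
def dagIso (A : CStarTensor D) {X Y : D} (e : X ≅ Y) : X ≅ Y where
  hom := A.dag e.inv
  inv := A.dag e.hom
  hom_inv_id := by rw [← A.dag_comp, e.hom_inv_id, dag_id]
  inv_hom_id := by rw [← A.dag_comp, e.inv_hom_id, dag_id]

theorem t : TaskB5.{v, u} := by
  intro D _ _ _ _ _ _ A X H
  refine ⟨{ σ := fun W => dagIso A (H.σ W), nat := ?_, hex := ?_ }, fun W => rfl⟩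
  · intro W W' f
    have h := congrArg A.dag (H.nat (A.dag f))
    rw [A.dag_comp, A.dag_comp, dag_wl, dag_wr, A.dag_dag] at h
    -- h : dag σW.hom ≫ X ◁ f = f ▷ X ≫ dag σW'.hom
    change (X ◁ f) ≫ (dagIso A (H.σ W')).hom = (dagIso A (H.σ W)).hom ≫ (f ▷ X)
    have h2 : (dagIso A (H.σ W)).inv ≫ (X ◁ f) = (f ▷ X) ≫ (dagIso A (H.σ W')).inv := h
    rw [← Iso.inv_comp_eq, ← Category.assoc, h2, Category.assoc, Iso.inv_hom_id,
      Category.comp_id]
  · intro Y W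
    change A.dag (H.σ (Y ⊗ W)).inv = (α_ X Y W).inv ≫ (A.dag (H.σ Y).inv ▷ W) ≫
      (α_ Y X W).hom ≫ (Y ◁ A.dag (H.σ W).inv) ≫ (α_ Y W X).inv
    have hinv : (H.σ (Y ⊗ W)).inv = (α_ Y W X).hom ≫ (Y ◁ (H.σ W).inv) ≫ (α_ Y X W).inv ≫
        ((H.σ Y).inv ▷ W) ≫ (α_ X Y W).hom := by
      rw [← cancel_epi (H.σ (Y ⊗ W)).hom, Iso.hom_inv_id, H.hex]
      simp
    rw [hinv]
    simp only [A.dag_comp, dag_wl, dag_wr, A.dag_associator, dag_assoc_inv, Category.assoc]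

end Pool.Agent.H110R3.UF.B5X448
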