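import Pool.Agent.H110R3.UF.StmtsB

/-!
# TaskB6 (helper871)
-/

open CategoryTheory MonoidalCategory CategoryTheory.Limits

universe v u

namespace Pool.Agent.H871R3.UF

open Pool.Agent.H110R3.UF

section dagger

variable {D : Type u} [Category.{v} D] [Preadditive D] [Linear ℂ D] [MonoidalCategory D]
  (A : CStarTensor D)

theorem dag_id (X : D) : A.dag (𝟙 X) = 𝟙 X := by
  have h := A.dag_comp (𝟙 X) (A.dag (𝟙 X))
  rw [Category.id_comp, A.dag_dag, Category.id_comp] at h
  exact h.symm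

theorem dag_zero (X Y : D) : A.dag (0 : X ⟶ Y) = 0 := by
  have h := A.dag_smul (0 : ℂ) (0 : X ⟶ Y)
  rwa [zero_smul, star_zero, zero_smul] at h

theorem dag_neg {X Y : D} (f : X ⟶ Y) : A.dag (-f) = -A.dag f := by
  have h := A.dag_add f (-f)
  rw [add_neg_cancel, dag_zero] at h
  exact (neg_eq_of_add_eq_zero_right h.symm).symm

theorem dag_sub {X Y : D} (f g : X ⟶ Y) : A.dag (f - g) = A.dag f - A.dag g := by
  rw [sub_eq_add_neg, A.dag_add, dag_neg, sub_eq_add_neg]

theorem dag_sum {X Y : D} {ι : Type*} (s : Finset ι) (f : ι → (X ⟶ Y)) :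
    A.dag (∑ i ∈ s, f i) = ∑ i ∈ s, A.dag (f i) := by
  classical
  induction s using Finset.induction_on with
  | empty => simp [dag_zero]
  | insert i s hi ih => rw [Finset.sum_insert hi, Finset.sum_insert hi, A.dag_add, ih]

theorem dag_whiskerRight {X Y : D} (f : X ⟶ Y) (Z : D) : A.dag (f ▷ Z) = A.dag f ▷ Z := by
  rw [← tensorHom_id, A.dag_tensor, dag_id, tensorHom_id]

theorem dag_whiskerLeft {X Y : D} (Z : D) (f : X ⟶ Y) : A.dag (Z ◁ f) = Z ◁ A.dag f := by
  rw [← id_tensorHom, A.dag_tensor, dag_id, id_tensorHom]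

theorem eq_zero_of_dag {X Y : D} (k : X ⟶ Y) (h : k ≫ A.dag k = 0) : k = 0 := by
  have h1 := A.norm_cstar k
  have h0 : A.norm (0 : X ⟶ X) = 0 := by
    have := A.norm_smul (0 : ℂ) (0 : X ⟶ X)
    rwa [zero_smul, norm_zero, zero_mul] at this
  rw [h, h0] at h1
  exact A.norm_eq_zero k (pow_eq_zero_iff (two_ne_zero) |>.1 h1.symm)

end dagger

/-- the half-braiding given by the braiding -/
def brHalf {D : Type u} [Category.{v} D] [MonoidalCategory D] [BraidedCategory D] (X : D) :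
    HalfBr D X where
  σ W := β_ X W
  nat f := BraidedCategory.braiding_naturality_right X f
  hex Y W := by simp [BraidedCategory.braiding_tensor_right_hom]

section main

variable {D : Type u} [Category.{v} D] [Preadditive D] [Linear ℂ D]
  [MonoidalCategory D] [MonoidalPreadditive D] [MonoidalLinear ℂ D] [BraidedCategory D]
  (A : CStarTensor D) {n : ℕ} {T : Fin n → D}

theorem simple_case (h1 : TaskB1.{v, u}) (h2 : TaskB2.{v, u}) (h3 : TaskB3.{v, u})
    (h4 : TaskB4.{v, u}) (h5 : TaskB5.{v, u}) (hN : A.Nice n T) (a : Fin n) (W : D) :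
    A.dag (β_ (T a) W).hom = (β_ (T a) W).inv := by
  let H : HalfBr D (T a) := brHalf (T a)
  obtain ⟨H', hH'⟩ := h5 D A (T a) H
  obtain ⟨W', R, hd⟩ := hN.dual W
  obtain ⟨c, hc⟩ := hN.scal1 (R ≫ A.dag R)
  obtain ⟨c1, hc1⟩ := hN.scal a (insv H W W' R ≫ A.dag (insv H W W' R))
  obtain ⟨c2, hc2⟩ := hN.scal a (insv H' W W' R ≫ A.dag (insv H' W W' R))
  have e1 : c1.re ≤ c.re := h4 h2 h3 D A n T hN a H W W' R c c1 hc hc1
  have e2 : c2.re ≤ c.re := h4 h2 h3 D A n T hN a H' W W' R c c2 hc hc2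
  have hi : ins (T a) W W' R ≫ A.dag (ins (T a) W W' R) = c • 𝟙 (T a) :=
    (h2 h1 D A (T a) H W W' W W' R R).2.2 c hc
  have hs : (H'.σ W).hom = A.dag (H.σ W).inv := hH' W
  have hs' : A.dag (H'.σ W).hom = (H.σ W).inv := by rw [hs, A.dag_dag]
  have x1 : insv H W W' R ≫ A.dag (insv H' W W' R) = c • 𝟙 (T a) := by
    unfold insv
    rw [A.dag_comp, dag_whiskerRight, hs', Category.assoc, ← Category.assoc ((H.σ W).hom ▷ W'),
      ← comp_whiskerRight, Iso.hom_inv_id, id_whiskerRight, Category.id_comp, hi]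
  have x2 : insv H' W W' R ≫ A.dag (insv H W W' R) = c • 𝟙 (T a) := by
    unfold insv
    rw [A.dag_comp, dag_whiskerRight, hs, Category.assoc,
      ← Category.assoc (A.dag (H.σ W).inv ▷ W'),
      ← comp_whiskerRight, ← A.dag_comp, Iso.hom_inv_id, dag_id, id_whiskerRight,
      Category.id_comp, hi]
  set t : T a ⊗ W ⟶ W ⊗ T a := (H.σ W).hom - (H'.σ W).hom with ht
  have hk : ins (T a) W W' R ≫ (t ▷ W') = insv H W W' R - insv H' W W' R := by
    have hw : t ▷ W' = (H.σ W).hom ▷ W' - (H'.σ W).hom ▷ W' := by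
      refine eq_sub_of_add_eq ?_
      rw [← MonoidalPreadditive.add_whiskerRight, ht, sub_add_cancel]
    unfold insv
    rw [hw, Preadditive.comp_sub]
  set k := ins (T a) W W' R ≫ (t ▷ W') with hkdef
  have hkk : k ≫ A.dag k = (c1 + c2 - 2 * c) • 𝟙 (T a) := by
    rw [hk, dag_sub, Preadditive.comp_sub, Preadditive.sub_comp, Preadditive.sub_comp, x1, x2,
      hc1, hc2]
    rw [← sub_smul, ← sub_smul, ← sub_smul]
    congr 1
    ring
  obtain ⟨p1, p2⟩ := hN.nonneg a _ k _ hkk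
  have hz : c1 + c2 - 2 * c = 0 := by
    apply Complex.ext
    · simp only [Complex.sub_re, Complex.add_re, Complex.mul_re, Complex.re_ofNat,
        Complex.im_ofNat, zero_mul, sub_zero, Complex.zero_re] at p1 ⊢
      linarith
    · simpa using p2
  rw [hz, zero_smul] at hkk
  have hk0 := eq_zero_of_dag A k hkk
  have ht0 : t = 0 := by
    apply hd
    rw [hkdef] at hk0
    simpa only [ins, Category.assoc] using hk0
  have he : (H.σ W).hom = (H'.σ W).hom := sub_eq_zero.1 ht0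
  show A.dag (H.σ W).hom = (H.σ W).inv
  rw [he, hs']

theorem taskB6' (h1 : TaskB1.{v, u}) (h2 : TaskB2.{v, u}) (h3 : TaskB3.{v, u})
    (h4 : TaskB4.{v, u}) (h5 : TaskB5.{v, u}) (hN : A.Nice n T) (X Y : D) :
    A.dag (β_ X Y).hom = (β_ X Y).inv := by
  obtain ⟨m, s, e, he⟩ := hN.dec X
  have hT := fun i => simple_case A h1 h2 h3 h4 h5 hN (s i) Y
  have f1 : (β_ X Y).hom = ∑ i, (A.dag (e i) ▷ Y) ≫ (β_ (T (s i)) Y).hom ≫ (Y ◁ e i) := by
    calc (β_ X Y).hom = (𝟙 X ▷ Y) ≫ (β_ X Y).hom := by rw [id_whiskerRight, Category.id_comp]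
      _ = (∑ i, (A.dag (e i) ≫ e i) ▷ Y) ≫ (β_ X Y).hom := by rw [← he, sum_whiskerRight]
      _ = _ := by
        rw [Preadditive.sum_comp]
        refine Finset.sum_congr rfl fun i _ => ?_
        rw [comp_whiskerRight, Category.assoc, BraidedCategory.braiding_naturality_left]
  have f2 : (β_ X Y).inv = ∑ i, (Y ◁ A.dag (e i)) ≫ (β_ (T (s i)) Y).inv ≫ (e i ▷ Y) := by
    calc (β_ X Y).inv = (Y ◁ 𝟙 X) ≫ (β_ X Y).inv := by rw [whiskerLeft_id, Category.id_comp]
      _ = (∑ i, Y ◁ (A.dag (e i) ≫ e i)) ≫ (β_ X Y).inv := by rw [← he, whiskerLeft_sum]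
      _ = _ := by
        rw [Preadditive.sum_comp]
        refine Finset.sum_congr rfl fun i _ => ?_
        rw [whiskerLeft_comp, Category.assoc]
        congr 1
        rw [Iso.comp_inv_eq, Category.assoc, Iso.eq_inv_comp,
          BraidedCategory.braiding_naturality_left]
  rw [f1, dag_sum, f2]
  refine Finset.sum_congr rfl fun i _ => ?_
  rw [A.dag_comp, A.dag_comp, dag_whiskerRight, dag_whiskerLeft, A.dag_dag, hT, Category.assoc]

end main

/-- `TaskB6` from the proofs of `TaskB1` and `TaskB3` (which `TaskB2` and `TaskB4` need). -/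
theorem taskB6 (h1 : TaskB1.{v, u}) (h3 : TaskB3.{v, u}) : TaskB6.{v, u} := by
  intro h2 h4 h5 D _ _ _ _ _ _ _ A n T hN X Y
  exact taskB6' A h1 h2 h3 h4 h5 hN X Y

end Pool.Agent.H871R3.UF
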