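import Pool.Agent.H110R3.UF.StmtsB

set_option autoImplicit false

open scoped Matrix
open Finset

namespace Pool.Agent.H36R3.UF

open Pool.Agent.H110R3.UF Matrix

open scoped ComplexOrder MatrixOrder Matrix.Norms.L2Operator in
theorem root_of_psd {n : Type} [Fintype n] [DecidableEq n] {A : Matrix n n ℂ}
    (h : A.PosSemidef) : ∃ r : Matrix n n ℂ, A = r * rᴴ := by
  obtain ⟨B, hB⟩ := CStarAlgebra.nonneg_iff_eq_star_mul_self.mp h.nonneg
  exact ⟨Bᴴ, by rw [hB, conjTranspose_conjTranspose, star_eq_conjTranspose]⟩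

open scoped ComplexOrder MatrixOrder Matrix.Norms.L2Operator in
theorem exists_bound {I J : Type} [Fintype I] [DecidableEq I] [Fintype J] (m : Matrix I J ℂ) :
    ∃ M : ℝ, 0 ≤ M ∧ ((M : ℂ) • (1 : Matrix I I ℂ) - m * mᴴ).PosSemidef := by
  refine ⟨‖m * mᴴ‖, norm_nonneg _, ?_⟩
  have hs : IsSelfAdjoint (m * mᴴ) := by
    rw [isSelfAdjoint_iff, star_eq_conjTranspose, conjTranspose_mul, conjTranspose_conjTranspose]
  have h := hs.le_algebraMap_norm_self
  rw [← sub_nonneg, Matrix.nonneg_iff_posSemidef] at h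
  have e : algebraMap ℝ (Matrix I I ℂ) ‖m * mᴴ‖ = ((‖m * mᴴ‖ : ℝ) : ℂ) • (1 : Matrix I I ℂ) := by
    rw [Algebra.algebraMap_eq_smul_one]
    ext i j
    simp [Matrix.smul_apply]
  rw [← e]
  exact h

theorem assemble {I L : Type} [Fintype I] [DecidableEq I] [DecidableEq L] (s : I → L)
    (B : Matrix I I ℂ) (hB : ∀ i i', s i ≠ s i' → B i i' = 0)
    (key : ∀ l : L, ∃ r : Matrix {i // s i = l} {i // s i = l} ℂ,
      B.submatrix (Subtype.val : {i // s i = l} → I) (Subtype.val : {i // s i = l} → I) = r * rᴴ) :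
    ∃ r : Matrix I I ℂ, (∀ i j, s i ≠ s j → r i j = 0) ∧ B = r * rᴴ := by
  choose r hr using key
  have tr : ∀ (i k : I) (l : L) (hi : s i = l) (hk : s k = l),
      r (s k) ⟨i, hi.trans hk.symm⟩ ⟨k, rfl⟩ = r l ⟨i, hi⟩ ⟨k, hk⟩ := by
    intro i k l hi hk
    subst hk
    rfl
  refine ⟨Matrix.of fun i j => if h : s i = s j then r (s j) ⟨i, h⟩ ⟨j, rfl⟩ else 0, ?_, ?_⟩
  · intro i j h
    simp [h]
  · ext i i'
    simp only [Matrix.mul_apply, conjTranspose_apply, Matrix.of_apply]
    by_cases h : s i = s i'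
    · have h1 := congrFun (congrFun (hr (s i')) ⟨i, h⟩) ⟨i', rfl⟩
      rw [Matrix.mul_apply] at h1
      simp only [submatrix_apply, conjTranspose_apply] at h1
      rw [h1]
      symm
      have h2 : ∀ k, s k ≠ s i' → (if h : s i = s k then r (s k) ⟨i, h⟩ ⟨k, rfl⟩ else 0) *
          star (if h : s i' = s k then r (s k) ⟨i', h⟩ ⟨k, rfl⟩ else 0) = 0 := by
        intro k hk
        rw [dif_neg (fun h' : s i' = s k => hk h'.symm)]
        simp
      rw [← Finset.sum_filter_of_ne (s := univ) (p := fun k => s k = s i')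
        (fun k _ hk => by
          by_contra hc
          exact hk (h2 k hc))]
      rw [Finset.sum_subtype (univ.filter fun k => s k = s i') (p := fun k => s k = s i')
        (by simp)]
      refine Finset.sum_congr rfl fun k _ => ?_
      obtain ⟨k, hk⟩ := k
      have hk1 : s i = s k := h.trans hk.symm
      have hk2 : s i' = s k := hk.symm
      simp only [dif_pos hk1, dif_pos hk2]
      rw [tr i k (s i') h hk, tr i' k (s i') rfl hk]
    · rw [hB i i' h]
      symm
      apply Finset.sum_eq_zero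
      intro k _
      by_cases hk : s i = s k
      · have hk2 : ¬ s i' = s k := fun h' => h (hk.trans h'.symm)
        rw [dif_neg hk2]; simp
      · rw [dif_neg hk]; simp

open scoped ComplexOrder in
theorem taskB7 : TaskB7 := by
  intro I J L _ _ _ _ _ s t m hm
  obtain ⟨M, hM0, hM⟩ := exists_bound m
  obtain ⟨r, h1, h2⟩ := assemble s ((M : ℂ) • (1 : Matrix I I ℂ) - m * mᴴ) (by
    intro i i' h
    have hne : i ≠ i' := fun h' => h (by rw [h'])
    have h0 : (m * mᴴ) i i' = 0 := by
      rw [Matrix.mul_apply]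
      apply Finset.sum_eq_zero
      intro j _
      rw [conjTranspose_apply]
      by_cases hj : s i = t j
      · rw [hm i' j (fun h' => h (hj.trans h'.symm))]; simp
      · rw [hm i j hj]; simp
    rw [Matrix.sub_apply, h0, Matrix.smul_apply, Matrix.one_apply_ne hne]
    simp) (fun l => root_of_psd (hM.submatrix _))
  exact ⟨M, r, hM0, h1, h2⟩

end Pool.Agent.H36R3.UF
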