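import Pool.Agent.H110R3.UF.StmtsB

/-! # TaskB8 of project H110-UFB (helper729) -/

open CategoryTheory MonoidalCategory CategoryTheory.Limits

universe v u

namespace Pool.Agent.H729R3.UF

open Pool.Agent.H110R3.UF

theorem taskB8 : TaskB8.{v, u} := by
  intro C _ _ _ _ _ W
  refine ⟨Wᘁ, η_ W Wᘁ, fun X Z t ht => ?_⟩
  have h0 : (ρ_ X).inv ≫ (X ◁ (η_ W Wᘁ)) ≫ (α_ X W Wᘁ).inv ≫
      ((0 : X ⊗ W ⟶ Z) ▷ Wᘁ) = 0 := by
    rw [MonoidalPreadditive.zero_whiskerRight]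
    simp
  exact (tensorRightHomEquiv X W Wᘁ Z).injective (ht.trans h0.symm)

end Pool.Agent.H729R3.UF
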