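import Pool.Agent.H110R3.UF.Stmts

/-! TaskCtx: the context from a gauge with unitary F-matrices. -/

open CategoryTheory MonoidalCategory CategoryTheory.Limits
open scoped Matrix Matrix.Norms.L2Operator

universe v u

namespace Pool.Agent.H110R3.UF.CtxA

open Pool.Agent.H110R3.UF

theorem t : TaskCtx.{v, u} := by
  intro hS hD hU C _ _ _ _ _ R G hG
  haveI : MonoidalPreadditive C := IsFusion.additive
  haveI : MonoidalLinear ℂ C := IsFusion.linear
  obtain ⟨dl, coef, h1, h2, h3, h4, h5⟩ := hS C R
  choose G' hG' using fun a b => hD C R.n R.S dl coef h1 h2 h3 h4 (R.S a ⊗ R.S b)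
    (h5 (R.S a ⊗ R.S b)) (G.N a b) (G.basis a b)
  obtain ⟨o, oinc, oprj, h6, h7, h8, h9⟩ := hU C R G hG dl coef h1 h2 h3 h4 G'
    (fun a b c k c' k' => (hG' a b).1 c k c' k') (fun a b => (hG' a b).2)
  choose M hM hM1 hM2 using hG
  refine ⟨{ n := R.n, S := R.S, N := G.N, G := fun a b c k => G.basis a b c k, G' := G',
            dl := dl, coef := coef, dl_self := h1, dl_ne := h2, coef_dl := h3, eq_coef := h4,
            ortho := fun a b c k c' k' => (hG' a b).1 c k c' k', total := fun a b => (hG' a b).2,
            Fm := fun a b c d e f i j k l => M a b c d ⟨e, (i, j)⟩ ⟨f, (k, l)⟩,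
            F_hom := ?_, F_inv := ?_, o := o, oinc := oinc, oprj := oprj,
            oinc_oprj := h6, oprj_oinc := h7, lunit := h8, runit := h9, dec := h5 }⟩
  · intro a b c d e i j
    have := hM a b c d ⟨e, (i, j)⟩
    rw [Fintype.sum_sigma] at this
    simp only [Fintype.sum_prod_type] at this
    simpa [Gauge.lvec, Gauge.rvec] using this
  · intro a b c d f k l
    have key : ∑ p, star (M a b c d p ⟨f, (k, l)⟩) • G.lvec p =
        G.rvec (⟨f, (k, l)⟩ : G.RPath a b c d) ≫ (α_ _ _ _).inv := by
      rw [← cancel_mono (α_ (R.S a) (R.S b) (R.S c)).hom, Category.assoc, Iso.inv_hom_id,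
        Category.comp_id, Preadditive.sum_comp]
      have h : ∀ p, (star (M a b c d p ⟨f, (k, l)⟩) • G.lvec p) ≫ (α_ _ _ _).hom =
          ∑ q, (star (M a b c d p ⟨f, (k, l)⟩) * M a b c d p q) • G.rvec q := by
        intro p
        rw [Linear.smul_comp, hM a b c d p, Finset.smul_sum]
        exact Finset.sum_congr rfl fun q _ => by rw [smul_smul]
      rw [Finset.sum_congr rfl fun p _ => h p, Finset.sum_comm]
      simp_rw [← Finset.sum_smul]
      have h' : ∀ q, ∑ p, star (M a b c d p ⟨f, (k, l)⟩) * M a b c d p q =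
          if (⟨f, (k, l)⟩ : G.RPath a b c d) = q then 1 else 0 := by
        intro q
        have := congrFun (congrFun (hM2 a b c d) ⟨f, (k, l)⟩) q
        rw [Matrix.mul_apply, Matrix.one_apply] at this
        simpa [Matrix.conjTranspose_apply] using this
      simp_rw [h']
      simp
    rw [Fintype.sum_sigma] at key
    simp only [Fintype.sum_prod_type] at key
    have := key.symm
    simpa [Gauge.lvec, Gauge.rvec] using this

end Pool.Agent.H110R3.UF.CtxA
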