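import Pool.Agent.H110R3.UF.Stmts

/-! TaskMain: the C*-tensor category of decomposed objects. -/

open CategoryTheory MonoidalCategory CategoryTheory.Limits
open scoped Matrix Matrix.Norms.L2Operator

universe v u

namespace Pool.Agent.H110R3.UF.MainA

open Pool.Agent.H110R3.UF

section
variable {C : Type u} [Category.{v} C] [Preadditive C] [Linear ℂ C] [MonoidalCategory C]

/-- Decomposed objects. -/
structure Ob (K : Ctx C) where
  P : Pre K
  good : P.Good

variable {K : Ctx C}

instance : Category.{v} (Ob K) where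
  Hom X Y := X.P.X ⟶ Y.P.X
  id X := 𝟙 X.P.X
  comp f g := CategoryStruct.comp (obj := C) f g
  id_comp f := Category.id_comp (obj := C) f
  comp_id f := Category.comp_id (obj := C) f
  assoc f g h := Category.assoc (obj := C) f g h

instance : Preadditive (Ob K) where
  homGroup X Y := inferInstanceAs (AddCommGroup (X.P.X ⟶ Y.P.X))
  add_comp X Y Z f f' g := Preadditive.add_comp (C := C) _ _ _ f f' g
  comp_add X Y Z f g g' := Preadditive.comp_add (C := C) _ _ _ f g g'

instance : Linear ℂ (Ob K) where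
  homModule X Y := inferInstanceAs (Module ℂ (X.P.X ⟶ Y.P.X))
  smul_comp X Y Z r f g := Linear.smul_comp (C := C) _ _ _ r f g
  comp_smul X Y Z f r g := Linear.comp_smul (C := C) _ _ _ f r g

/-- The forgetful functor. -/
def forg (K : Ctx C) : Ob K ⥤ C where
  obj X := X.P.X
  map f := f
  map_id _ := rfl
  map_comp _ _ := rfl

instance : (forg K).Additive where
  map_add := rfl

instance : (forg K).Linear ℂ where
  map_smul _ _ := rfl

instance : (forg K).Full where
  map_surjective f := ⟨f, rfl⟩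

instance : (forg K).Faithful where
  map_injective h := h

instance : (forg K).EssSurj where
  mem_essImage X := by
    obtain ⟨m, s, inc, prj, h1, h2⟩ := K.dec X
    exact ⟨⟨Pre.mk (K := K) X (Fin m) inferInstance inferInstance s inc prj, Pre.Good.mk h1 h2⟩,
      ⟨Iso.refl X⟩⟩

/-- The tensor structure. -/
@[reducible] def monS (hT : ∀ (X Y : Pre K), X.Good → Y.Good → (X.tens Y).Good)
    (hU : (Pre.unit K).Good) : MonoidalCategoryStruct (Ob K) where
  tensorObj X Y := ⟨X.P.tens Y.P, hT _ _ X.good Y.good⟩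
  whiskerLeft X _ _ f := MonoidalCategoryStruct.whiskerLeft (C := C) X.P.X f
  whiskerRight f Y := MonoidalCategoryStruct.whiskerRight (C := C) f Y.P.X
  tensorHom f g := MonoidalCategoryStruct.tensorHom (C := C) f g
  tensorUnit := ⟨Pre.unit K, hU⟩
  associator X Y Z := ⟨(α_ X.P.X Y.P.X Z.P.X).hom, (α_ X.P.X Y.P.X Z.P.X).inv,
    (α_ X.P.X Y.P.X Z.P.X).hom_inv_id, (α_ X.P.X Y.P.X Z.P.X).inv_hom_id⟩
  leftUnitor X := ⟨(λ_ X.P.X).hom, (λ_ X.P.X).inv,
    (λ_ X.P.X).hom_inv_id, (λ_ X.P.X).inv_hom_id⟩
  rightUnitor X := ⟨(ρ_ X.P.X).hom, (ρ_ X.P.X).inv,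
    (ρ_ X.P.X).hom_inv_id, (ρ_ X.P.X).inv_hom_id⟩

/-- The monoidal category of decomposed objects. -/
@[reducible] def monOb (hT : ∀ (X Y : Pre K), X.Good → Y.Good → (X.tens Y).Good)
    (hU : (Pre.unit K).Good) : MonoidalCategory (Ob K) where
  toMonoidalCategoryStruct := monS hT hU
  tensorHom_def f g := MonoidalCategory.tensorHom_def (C := C) f g
  id_tensorHom_id X Y := MonoidalCategory.id_tensorHom_id (C := C) X.P.X Y.P.X
  tensorHom_comp_tensorHom f g h k :=
    MonoidalCategory.tensorHom_comp_tensorHom (C := C) f g h k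
  whiskerLeft_id X Y := MonoidalCategory.whiskerLeft_id (C := C) X.P.X Y.P.X
  id_whiskerRight X Y := MonoidalCategory.id_whiskerRight (C := C) X.P.X Y.P.X
  associator_naturality f g h := MonoidalCategory.associator_naturality (C := C) f g h
  leftUnitor_naturality f := MonoidalCategory.leftUnitor_naturality (C := C) f
  rightUnitor_naturality f := MonoidalCategory.rightUnitor_naturality (C := C) f
  pentagon W X Y Z := MonoidalCategory.pentagon (C := C) W.P.X X.P.X Y.P.X Z.P.X
  triangle X Y := MonoidalCategory.triangle (C := C) X.P.X Y.P.X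

/-- The forgetful functor is monoidal. -/
@[reducible] def forgMon (hT : ∀ (X Y : Pre K), X.Good → Y.Good → (X.tens Y).Good)
    (hU : (Pre.unit K).Good) :
    letI := monOb hT hU
    (forg K).Monoidal :=
  letI := monOb hT hU
  Functor.CoreMonoidal.toMonoidal
    { εIso := Iso.refl (𝟙_ C)
      μIso := fun X Y => Iso.refl (X.P.X ⊗ Y.P.X)
      μIso_hom_natural_left := fun {X X'} f Y =>
        (Category.comp_id (obj := C)
          (MonoidalCategoryStruct.whiskerRight (C := C) (X₁ := X.P.X) (X₂ := X'.P.X) f Y.P.X)).trans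
        (Category.id_comp (obj := C) _).symm
      μIso_hom_natural_right := fun {Y Y'} X f =>
        (Category.comp_id (obj := C)
          (MonoidalCategoryStruct.whiskerLeft (C := C) X.P.X (Y₁ := Y.P.X) (Y₂ := Y'.P.X) f)).trans
        (Category.id_comp (obj := C) _).symm
      associativity := fun X Y Z => by
        change (𝟙 (X.P.X ⊗ Y.P.X) ▷ Z.P.X) ≫ 𝟙 _ ≫ (α_ X.P.X Y.P.X Z.P.X).hom =
          (α_ X.P.X Y.P.X Z.P.X).hom ≫ (X.P.X ◁ 𝟙 (Y.P.X ⊗ Z.P.X)) ≫ 𝟙 _
        simp
      left_unitality := fun X => by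
        change (λ_ X.P.X).hom = (𝟙 (𝟙_ C) ▷ X.P.X) ≫ 𝟙 _ ≫ (λ_ X.P.X).hom
        simp
      right_unitality := fun X => by
        change (ρ_ X.P.X).hom = (X.P.X ◁ 𝟙 (𝟙_ C)) ≫ 𝟙 _ ≫ (ρ_ X.P.X).hom
        simp }

end

theorem t : TaskMain.{v, u} := by
  intro hMat hTens hT1 hT2 hT3 hPos hCompl C _ _ _ _ _ _ K
  obtain ⟨m1, m2, m3, m4, m5, m6⟩ := hMat C K
  obtain ⟨hT, hU⟩ := hTens C K
  have inj : ∀ (X Y : Pre K), X.Good → Y.Good → ∀ f g : X.X ⟶ Y.X,
      mat X Y f = mat X Y g → f = g := by
    intro X Y hX hY f g h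
    rw [← m3 X Y f hX hY, ← m3 X Y g hX hY, h]
  have madd : ∀ (X Y : Pre K) (f g : X.X ⟶ Y.X), mat X Y (f + g) = mat X Y f + mat X Y g := by
    intro X Y f g
    ext i j
    simp [mat, Preadditive.comp_add, Preadditive.add_comp]
  have msmul : ∀ (X Y : Pre K) (c : ℂ) (f : X.X ⟶ Y.X), mat X Y (c • f) = c • mat X Y f := by
    intro X Y c f
    ext i j
    simp [mat, Linear.comp_smul, Linear.smul_comp]
  have msub : ∀ (X Y : Pre K) (f g : X.X ⟶ Y.X), mat X Y (f - g) = mat X Y f - mat X Y g := by
    intro X Y f g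
    ext i j
    simp [mat, Preadditive.comp_sub, Preadditive.sub_comp]
  have mrea : ∀ (X Y : Pre K) (m : Matrix X.I Y.I ℂ), X.Good → Y.Good →
      (∀ i j, X.s i ≠ Y.s j → m i j = 0) → mat X Y (rea X Y m) = m := by
    intro X Y m hX hY h
    ext i j
    rw [m5 X Y m i j hX hY]
    split_ifs with hij
    · rfl
    · exact (h i j hij).symm
  letI := monOb hT hU
  refine ⟨Ob K, inferInstance, inferInstance, inferInstance, monOb hT hU, ?_, forg K,
    forgMon hT hU, inferInstance, inferInstance,
    ⟨inferInstance, inferInstance, inferInstance⟩⟩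
  exact
  { dag := fun {X Y} f => dagm X.P Y.P f
    norm := fun {X Y} f => ‖mat X.P Y.P f‖
    dag_dag := by
      intro X Y f
      apply inj _ _ X.good Y.good
      rw [m6 _ _ _ Y.good X.good, m6 _ _ _ X.good Y.good, Matrix.conjTranspose_conjTranspose]
    dag_comp := by
      intro X Y Z f g
      apply inj _ _ Z.good X.good
      refine (m6 _ _ _ X.good Z.good).trans ?_
      refine Eq.trans ?_ (m2 _ _ _ _ _ Y.good).symm
      rw [m6 _ _ _ X.good Y.good, m6 _ _ _ Y.good Z.good, ← Matrix.conjTranspose_mul]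
      congr 1
      exact m2 _ _ _ _ _ Y.good
    dag_add := by
      intro X Y f g
      apply inj _ _ Y.good X.good
      refine (m6 _ _ _ X.good Y.good).trans ?_
      refine Eq.trans ?_ (madd _ _ _ _).symm
      rw [m6 _ _ _ X.good Y.good, m6 _ _ _ X.good Y.good, ← Matrix.conjTranspose_add]
      congr 1
      exact madd _ _ _ _
    dag_smul := by
      intro X Y c f
      apply inj _ _ Y.good X.good
      refine (m6 _ _ _ X.good Y.good).trans ?_
      refine Eq.trans ?_ (msmul _ _ _ _).symm
      rw [m6 _ _ _ X.good Y.good, ← Matrix.conjTranspose_smul]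
      congr 1
      exact msmul _ _ _ _
    norm_nonneg := fun f => norm_nonneg _
    norm_eq_zero := by
      intro X Y f h
      apply inj _ _ X.good Y.good
      rw [norm_eq_zero.mp h]
      symm
      have := msub X.P Y.P f f
      rw [sub_self, sub_self] at this
      exact this
    norm_add := by
      intro X Y f g
      exact (congrArg norm (madd X.P Y.P f g)).trans_le (norm_add_le _ _)
    norm_smul := by
      intro X Y c f
      exact (congrArg norm (msmul X.P Y.P c f)).trans (norm_smul _ _)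
    norm_comp := by
      intro X Y Z f g
      exact (congrArg norm (m2 X.P Y.P Z.P f g Y.good)).trans_le (Matrix.l2_opNorm_mul _ _)
    norm_cstar := by
      intro X Y f
      refine (congrArg norm (m2 X.P Y.P X.P f _ Y.good)).trans ?_
      rw [m6 _ _ _ X.good Y.good]
      have := Matrix.l2_opNorm_conjTranspose_mul_self (mat X.P Y.P f)ᴴ
      rw [Matrix.conjTranspose_conjTranspose, Matrix.l2_opNorm_conjTranspose] at this
      rw [this, sq]
    complete := by
      intro X Y f hf
      obtain ⟨r, hr1, hr2⟩ := hCompl X.P.I Y.P.I (Fin K.n) X.P.s Y.P.s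
        (fun k => mat X.P Y.P (f k)) (fun k i j h => m4 _ _ _ i j h) (by
          intro ε hε
          obtain ⟨n₀, h⟩ := hf ε hε
          refine ⟨n₀, fun p hp q hq => ?_⟩
          have h1 := h p hp q hq
          have h2 := msub X.P Y.P (f p) (f q)
          rw [← h2]
          exact h1)
      refine ⟨rea X.P Y.P r, fun ε hε => ?_⟩
      obtain ⟨n₀, h⟩ := hr2 ε hε
      refine ⟨n₀, fun q hq => ?_⟩
      have h1 := h q hq
      rw [← mrea X.P Y.P r X.good Y.good hr1, ← msub X.P Y.P] at h1
      exact h1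
    positive := by
      intro X Y f
      obtain ⟨r, hr1, hr2⟩ := hPos X.P.I Y.P.I (Fin K.n) X.P.s Y.P.s (mat X.P Y.P f)
        (fun i j h => m4 _ _ _ i j h)
      refine ⟨rea X.P X.P r, ?_⟩
      apply inj _ _ X.good X.good
      refine (m2 X.P Y.P X.P f _ Y.good).trans ?_
      refine Eq.trans ?_ (m2 X.P X.P X.P _ _ X.good).symm
      rw [m6 _ _ _ X.good Y.good, m6 _ _ _ X.good X.good, mrea _ _ _ X.good X.good hr1, hr2]
    dag_tensor := by
      intro X Y X' Y' f g
      apply inj _ _ (hT _ _ X'.good Y'.good) (hT _ _ X.good Y.good)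
      refine (m6 _ _ _ (hT _ _ X.good Y.good) (hT _ _ X'.good Y'.good)).trans ?_
      have := hT1 C K X.P Y.P X'.P Y'.P f g X.good Y.good X'.good Y'.good
      refine (congrArg Matrix.conjTranspose this).trans ?_
      rw [Matrix.conjTranspose_conjTranspose]
      rfl
    dag_associator := by
      intro X Y Z
      apply inj _ _ (hT _ _ X.good (hT _ _ Y.good Z.good)) (hT _ _ (hT _ _ X.good Y.good) Z.good)
      refine (m6 _ _ _ (hT _ _ (hT _ _ X.good Y.good) Z.good)
        (hT _ _ X.good (hT _ _ Y.good Z.good))).trans ?_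
      exact (hT2 C K X.P Y.P Z.P X.good Y.good Z.good).symm
    dag_leftUnitor := by
      intro X
      apply inj _ _ X.good (hT _ _ hU X.good)
      refine (m6 _ _ _ (hT _ _ hU X.good) X.good).trans ?_
      exact (hT3 C K X.P X.good).1.symm
    dag_rightUnitor := by
      intro X
      apply inj _ _ X.good (hT _ _ X.good hU)
      refine (m6 _ _ _ (hT _ _ X.good hU) X.good).trans ?_
      exact (hT3 C K X.P X.good).2.symm }

end Pool.Agent.H110R3.UF.MainA
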