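import Pool.Agent.H110R3.UF.StmtsB
import Pool.Agent.H110R3.UF.MainA

/-! The braided case: assembly. -/

open CategoryTheory MonoidalCategory CategoryTheory.Limits
open scoped Matrix Matrix.Norms.L2Operator

universe v u

namespace Pool.Agent.H110R3.UF.MainB

open Pool.Agent.H110R3.UF Pool.Agent.H110R3.UF.MainA

section
variable {C : Type u} [Category.{v} C] [Preadditive C] [Linear ℂ C] [MonoidalCategory C]

/-- The facts on the matrix calculus. -/
structure Facts (K : Ctx C) : Prop where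
  m1 : ∀ (X : Pre K), X.Good → mat X X (𝟙 X.X) = 1
  m2 : ∀ (X Y Z : Pre K) (f : X.X ⟶ Y.X) (g : Y.X ⟶ Z.X), Y.Good →
    mat X Z (f ≫ g) = mat X Y f * mat Y Z g
  m3 : ∀ (X Y : Pre K) (f : X.X ⟶ Y.X), X.Good → Y.Good → rea X Y (mat X Y f) = f
  m4 : ∀ (X Y : Pre K) (f : X.X ⟶ Y.X) i j, X.s i ≠ Y.s j → mat X Y f i j = 0
  m5 : ∀ (X Y : Pre K) (m : Matrix X.I Y.I ℂ) i j, X.Good → Y.Good →
    mat X Y (rea X Y m) i j = if X.s i = Y.s j then m i j else 0
  m6 : ∀ (X Y : Pre K) (f : X.X ⟶ Y.X), X.Good → Y.Good → mat Y X (dagm X Y f) = (mat X Y f)ᴴ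
  hT : ∀ (X Y : Pre K), X.Good → Y.Good → (X.tens Y).Good
  hU : (Pre.unit K).Good
  t1 : ∀ (X Y X' Y' : Pre K) (f : X.X ⟶ X'.X) (g : Y.X ⟶ Y'.X), X.Good → Y.Good → X'.Good →
    Y'.Good → mat (X.tens Y) (X'.tens Y') (f ⊗ₘ g) =
      (mat (X'.tens Y') (X.tens Y) (dagm X X' f ⊗ₘ dagm Y Y' g))ᴴ
  t2 : ∀ (X Y Z : Pre K), X.Good → Y.Good → Z.Good →
    mat (X.tens (Y.tens Z)) ((X.tens Y).tens Z) (α_ X.X Y.X Z.X).inv =
      (mat ((X.tens Y).tens Z) (X.tens (Y.tens Z)) (α_ X.X Y.X Z.X).hom)ᴴ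
  t3 : ∀ (X : Pre K), X.Good →
    mat X ((Pre.unit K).tens X) (λ_ X.X).inv = (mat ((Pre.unit K).tens X) X (λ_ X.X).hom)ᴴ ∧
    mat X (X.tens (Pre.unit K)) (ρ_ X.X).inv = (mat (X.tens (Pre.unit K)) X (ρ_ X.X).hom)ᴴ
  pos : TaskPos
  compl : TaskCompl

variable {K : Ctx C}

theorem Facts.inj (F : Facts K) (X Y : Pre K) (hX : X.Good) (hY : Y.Good) (f g : X.X ⟶ Y.X)
    (h : mat X Y f = mat X Y g) : f = g := by
  rw [← F.m3 X Y f hX hY, ← F.m3 X Y g hX hY, h]

theorem madd (X Y : Pre K) (f g : X.X ⟶ Y.X) : mat X Y (f + g) = mat X Y f + mat X Y g := by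
  ext i j
  simp [mat, Preadditive.comp_add, Preadditive.add_comp]

theorem msmul (X Y : Pre K) (c : ℂ) (f : X.X ⟶ Y.X) : mat X Y (c • f) = c • mat X Y f := by
  ext i j
  simp [mat, Linear.comp_smul, Linear.smul_comp]

theorem msub (X Y : Pre K) (f g : X.X ⟶ Y.X) : mat X Y (f - g) = mat X Y f - mat X Y g := by
  ext i j
  simp [mat, Preadditive.comp_sub, Preadditive.sub_comp]

theorem Facts.mrea (F : Facts K) (X Y : Pre K) (m : Matrix X.I Y.I ℂ) (hX : X.Good) (hY : Y.Good)
    (h : ∀ i j, X.s i ≠ Y.s j → m i j = 0) : mat X Y (rea X Y m) = m := by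
  ext i j
  rw [F.m5 X Y m i j hX hY]
  split_ifs with hij
  · rfl
  · exact (h i j hij).symm

/-- The C*-tensor structure. -/
@[reducible] noncomputable def cst (F : Facts K) :
    @CStarTensor (Ob K) _ _ _ (monOb F.hT F.hU) :=
  letI := monOb F.hT F.hU
  { dag := fun {X Y} f => dagm X.P Y.P f
    norm := fun {X Y} f => ‖mat X.P Y.P f‖
    dag_dag := by
      intro X Y f
      apply F.inj _ _ X.good Y.good
      rw [F.m6 _ _ _ Y.good X.good, F.m6 _ _ _ X.good Y.good, Matrix.conjTranspose_conjTranspose]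
    dag_comp := by
      intro X Y Z f g
      apply F.inj _ _ Z.good X.good
      refine (F.m6 _ _ _ X.good Z.good).trans ?_
      refine Eq.trans ?_ (F.m2 _ _ _ _ _ Y.good).symm
      rw [F.m6 _ _ _ X.good Y.good, F.m6 _ _ _ Y.good Z.good, ← Matrix.conjTranspose_mul]
      congr 1
      exact F.m2 _ _ _ _ _ Y.good
    dag_add := by
      intro X Y f g
      apply F.inj _ _ Y.good X.good
      refine (F.m6 _ _ _ X.good Y.good).trans ?_
      refine Eq.trans ?_ (madd _ _ _ _).symm
      rw [F.m6 _ _ _ X.good Y.good, F.m6 _ _ _ X.good Y.good, ← Matrix.conjTranspose_add]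
      congr 1
      exact madd _ _ _ _
    dag_smul := by
      intro X Y c f
      apply F.inj _ _ Y.good X.good
      refine (F.m6 _ _ _ X.good Y.good).trans ?_
      refine Eq.trans ?_ (msmul _ _ _ _).symm
      rw [F.m6 _ _ _ X.good Y.good, ← Matrix.conjTranspose_smul]
      congr 1
      exact msmul _ _ _ _
    norm_nonneg := fun f => norm_nonneg _
    norm_eq_zero := by
      intro X Y f h
      apply F.inj _ _ X.good Y.good
      rw [norm_eq_zero.mp h]
      symm
      have := msub X.P Y.P f f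
      rw [sub_self, sub_self] at this
      exact this
    norm_add := by
      intro X Y f g
      exact (congrArg norm (madd X.P Y.P f g)).trans_le (norm_add_le _ _)
    norm_smul := by
      intro X Y c f
      exact (congrArg norm (msmul X.P Y.P c f)).trans (norm_smul _ _)
    norm_comp := by
      intro X Y Z f g
      exact (congrArg norm (F.m2 X.P Y.P Z.P f g Y.good)).trans_le (Matrix.l2_opNorm_mul _ _)
    norm_cstar := by
      intro X Y f
      refine (congrArg norm (F.m2 X.P Y.P X.P f _ Y.good)).trans ?_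
      rw [F.m6 _ _ _ X.good Y.good]
      have := Matrix.l2_opNorm_conjTranspose_mul_self (mat X.P Y.P f)ᴴ
      rw [Matrix.conjTranspose_conjTranspose, Matrix.l2_opNorm_conjTranspose] at this
      rw [this, sq]
    complete := by
      intro X Y f hf
      obtain ⟨r, hr1, hr2⟩ := F.compl X.P.I Y.P.I (Fin K.n) X.P.s Y.P.s
        (fun k => mat X.P Y.P (f k)) (fun k i j h => F.m4 _ _ _ i j h) (by
          intro ε hε
          obtain ⟨n₀, h⟩ := hf ε hε
          refine ⟨n₀, fun p hp q hq => ?_⟩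
          have h1 := h p hp q hq
          have h2 := msub X.P Y.P (f p) (f q)
          rw [← h2]
          exact h1)
      refine ⟨rea X.P Y.P r, fun ε hε => ?_⟩
      obtain ⟨n₀, h⟩ := hr2 ε hε
      refine ⟨n₀, fun q hq => ?_⟩
      have h1 := h q hq
      rw [← F.mrea X.P Y.P r X.good Y.good hr1, ← msub X.P Y.P] at h1
      exact h1
    positive := by
      intro X Y f
      obtain ⟨r, hr1, hr2⟩ := F.pos X.P.I Y.P.I (Fin K.n) X.P.s Y.P.s (mat X.P Y.P f)
        (fun i j h => F.m4 _ _ _ i j h)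
      refine ⟨rea X.P X.P r, ?_⟩
      apply F.inj _ _ X.good X.good
      refine (F.m2 X.P Y.P X.P f _ Y.good).trans ?_
      refine Eq.trans ?_ (F.m2 X.P X.P X.P _ _ X.good).symm
      rw [F.m6 _ _ _ X.good Y.good, F.m6 _ _ _ X.good X.good, F.mrea _ _ _ X.good X.good hr1, hr2]
    dag_tensor := by
      intro X Y X' Y' f g
      apply F.inj _ _ (F.hT _ _ X'.good Y'.good) (F.hT _ _ X.good Y.good)
      refine (F.m6 _ _ _ (F.hT _ _ X.good Y.good) (F.hT _ _ X'.good Y'.good)).trans ?_
      have := F.t1 X.P Y.P X'.P Y'.P f g X.good Y.good X'.good Y'.good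
      refine (congrArg Matrix.conjTranspose this).trans ?_
      rw [Matrix.conjTranspose_conjTranspose]
      rfl
    dag_associator := by
      intro X Y Z
      apply F.inj _ _ (F.hT _ _ X.good (F.hT _ _ Y.good Z.good)) (F.hT _ _ (F.hT _ _ X.good Y.good) Z.good)
      refine (F.m6 _ _ _ (F.hT _ _ (F.hT _ _ X.good Y.good) Z.good)
        (F.hT _ _ X.good (F.hT _ _ Y.good Z.good))).trans ?_
      exact (F.t2 X.P Y.P Z.P X.good Y.good Z.good).symm
    dag_leftUnitor := by
      intro X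
      apply F.inj _ _ X.good (F.hT _ _ F.hU X.good)
      refine (F.m6 _ _ _ (F.hT _ _ F.hU X.good) X.good).trans ?_
      exact (F.t3 X.P X.good).1.symm
    dag_rightUnitor := by
      intro X
      apply F.inj _ _ X.good (F.hT _ _ X.good F.hU)
      refine (F.m6 _ _ _ (F.hT _ _ X.good F.hU) X.good).trans ?_
      exact (F.t3 X.P X.good).2.symm }


theorem monPre [MonoidalPreadditive C] (F : Facts K) :
    letI := monOb F.hT F.hU
    MonoidalPreadditive (Ob K) :=
  letI := monOb F.hT F.hU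
  { whiskerLeft_zero := fun {X Y Z} =>
      MonoidalPreadditive.whiskerLeft_zero (C := C) (X := X.P.X) (Y := Y.P.X) (Z := Z.P.X)
    zero_whiskerRight := fun {X Y Z} =>
      MonoidalPreadditive.zero_whiskerRight (C := C) (X := X.P.X) (Y := Y.P.X) (Z := Z.P.X)
    whiskerLeft_add := fun {X Y Z} f g =>
      MonoidalPreadditive.whiskerLeft_add (C := C) (X := X.P.X) (Y := Y.P.X) (Z := Z.P.X) f g
    add_whiskerRight := fun {X Y Z} f g =>
      MonoidalPreadditive.add_whiskerRight (C := C) (X := X.P.X) (Y := Y.P.X) (Z := Z.P.X) f g }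

theorem monLin [MonoidalPreadditive C] [MonoidalLinear ℂ C] (F : Facts K) :
    letI := monOb F.hT F.hU
    haveI := monPre F
    MonoidalLinear ℂ (Ob K) :=
  letI := monOb F.hT F.hU
  haveI := monPre F
  { whiskerLeft_smul := fun X {Y Z} r f =>
      MonoidalLinear.whiskerLeft_smul (C := C) X.P.X (Y := Y.P.X) (Z := Z.P.X) r f
    smul_whiskerRight := fun r {Y Z} f X =>
      MonoidalLinear.smul_whiskerRight (C := C) r (Y := Y.P.X) (Z := Z.P.X) f X.P.X }

/-- The braiding. -/
@[reducible] def brOb [BraidedCategory C] (F : Facts K) :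
    letI := monOb F.hT F.hU
    BraidedCategory (Ob K) :=
  letI := monOb F.hT F.hU
  { braiding := fun X Y => ⟨(β_ X.P.X Y.P.X).hom, (β_ X.P.X Y.P.X).inv,
      (β_ X.P.X Y.P.X).hom_inv_id, (β_ X.P.X Y.P.X).inv_hom_id⟩
    braiding_naturality_right := fun X {Y Z} f =>
      BraidedCategory.braiding_naturality_right (C := C) X.P.X (Y := Y.P.X) (Z := Z.P.X) f
    braiding_naturality_left := fun {X Y} f Z =>
      BraidedCategory.braiding_naturality_left (C := C) (X := X.P.X) (Y := Y.P.X) f Z.P.X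
    hexagon_forward := fun X Y Z =>
      BraidedCategory.hexagon_forward (C := C) X.P.X Y.P.X Z.P.X
    hexagon_reverse := fun X Y Z =>
      BraidedCategory.hexagon_reverse (C := C) X.P.X Y.P.X Z.P.X }

/-- The forgetful functor is braided. -/
@[reducible] def forgBr [BraidedCategory C] (F : Facts K) :
    letI := monOb F.hT F.hU
    letI := brOb F
    (forg K).Braided :=
  letI := monOb F.hT F.hU
  letI := brOb F
  { toMonoidal := forgMon F.hT F.hU
    braided := fun X Y =>
      (Category.id_comp (obj := C) (β_ X.P.X Y.P.X).hom).trans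
        (Category.comp_id (obj := C) (β_ X.P.X Y.P.X).hom).symm }

/-- The simple object `S a` with the trivial decomposition. -/
def simp0 (K : Ctx C) (a : Fin K.n) : Pre K where
  X := K.S a
  I := Unit
  fI := inferInstance
  dI := inferInstance
  s := fun _ => a
  inc := fun _ => 𝟙 _
  prj := fun _ => 𝟙 _

theorem simp0_good (K : Ctx C) (a : Fin K.n) : (simp0 K a).Good where
  ortho i j := by
    change 𝟙 (K.S a) ≫ 𝟙 (K.S a) = if i = j then K.dl a a else 0
    have hij : i = j := Subsingleton.elim (α := Unit) i j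
    subst hij
    rw [K.dl_self, Category.id_comp]
    exact (if_pos rfl).symm
  total := by
    change ∑ i : Unit, 𝟙 (K.S a) ≫ 𝟙 (K.S a) = 𝟙 (K.S a)
    simp

/-- The simple object. -/
def Ts (K : Ctx C) (a : Fin K.n) : Ob K := ⟨simp0 K a, simp0_good K a⟩

theorem nonneg_aux (F : Facts K) (X : Pre K) (hX : X.Good) (i : X.I) (Z : Pre K) (hZ : Z.Good)
    (g : X.X ⟶ Z.X) (c : ℂ) (h : g ≫ dagm X Z g = c • 𝟙 X.X) : 0 ≤ c.re ∧ c.im = 0 := by
  have h1 := F.m2 X Z X g (dagm X Z g) hZ
  rw [h, msmul, F.m1 X hX, F.m6 X Z g hX hZ] at h1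
  have h2 := congrFun (congrFun h1 i) i
  rw [Matrix.mul_apply] at h2
  simp only [Matrix.smul_apply, Matrix.one_apply_eq, smul_eq_mul, mul_one,
    Matrix.conjTranspose_apply] at h2
  have h3 : ∀ j, mat X Z g i j * star (mat X Z g i j) = ((‖mat X Z g i j‖ ^ 2 : ℝ) : ℂ) := by
    intro j
    have := Complex.mul_conj (mat X Z g i j)
    rw [Complex.normSq_eq_norm_sq] at this
    exact this
  rw [Finset.sum_congr rfl fun j _ => h3 j, ← Complex.ofReal_sum] at h2
  rw [h2]
  refine ⟨?_, Complex.ofReal_im _⟩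
  rw [Complex.ofReal_re]
  exact Finset.sum_nonneg fun j _ => by positivity

theorem nice [MonoidalPreadditive C] [MonoidalLinear ℂ C] (F : Facts K) (h7 : TaskB7)
    (hdual : ∀ W : C, ∃ (W' : C) (R : 𝟙_ C ⟶ W ⊗ W'), ∀ (X Z : C) (t : X ⊗ W ⟶ Z),
      (ρ_ X).inv ≫ (X ◁ R) ≫ (α_ X W W').inv ≫ (t ▷ W') = 0 → t = 0) :
    letI := monOb F.hT F.hU
    (cst F).Nice K.n (Ts K) := by
  letI := monOb F.hT F.hU
  have hone : ∀ a, K.coef a a (𝟙 (K.S a)) = 1 := fun a => by
    rw [← K.dl_self a, K.coef_dl, if_pos rfl]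
  exact
  { dec := by
      intro W
      let e := Fintype.equivFin W.P.I
      refine ⟨Fintype.card W.P.I, fun i => W.P.s (e.symm i), fun i => W.P.inc (e.symm i), ?_⟩
      have h : ∀ i : W.P.I, dagm (simp0 K (W.P.s i)) W.P (W.P.inc i) = W.P.prj i := by
        intro i
        refine F.inj _ _ W.good (simp0_good K _) _ _ ?_
        refine (F.m6 (simp0 K (W.P.s i)) W.P (W.P.inc i) (simp0_good K _) W.good).trans ?_
        ext j k
        rw [Matrix.conjTranspose_apply]
        change star (K.coef _ _ (𝟙 _ ≫ W.P.inc i ≫ W.P.prj j)) =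
          K.coef _ _ (W.P.inc j ≫ W.P.prj i ≫ 𝟙 _)
        rw [Category.id_comp, Category.comp_id, W.good.ortho, W.good.ortho]
        by_cases hij : i = j
        · subst hij
          rw [if_pos rfl, K.dl_self]
          erw [hone]
          simp
        · rw [if_neg hij, if_neg (Ne.symm hij), map_zero, map_zero, star_zero]
      refine Eq.trans ?_ W.good.total
      refine Eq.trans ?_ (Equiv.sum_comp e.symm fun i => W.P.prj i ≫ W.P.inc i)
      refine Finset.sum_congr rfl fun i _ => ?_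
      exact congrArg (fun z => CategoryStruct.comp (obj := C) z (W.P.inc (e.symm i))) (h (e.symm i))
    scal := by
      intro a f
      refine ⟨K.coef a a f, ?_⟩
      have := K.eq_coef a a f
      rw [K.dl_self] at this
      exact this
    scal1 := by
      intro f
      have hf : ∃ c : ℂ, (f : 𝟙_ C ⟶ 𝟙_ C) = c • 𝟙 (𝟙_ C) := by
        let f' : 𝟙_ C ⟶ 𝟙_ C := f
        refine ⟨K.coef _ _ (K.oinc ≫ f' ≫ K.oprj), ?_⟩
        have h := K.eq_coef _ _ (K.oinc ≫ f' ≫ K.oprj)
        rw [K.dl_self] at h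
        have h' : K.oprj ≫ (K.oinc ≫ f' ≫ K.oprj) ≫ K.oinc = f' := by
          simp only [Category.assoc, K.oprj_oinc, Category.comp_id]
          rw [← Category.assoc, K.oprj_oinc, Category.id_comp]
        change f' = _
        rw [← h']
        conv_lhs => rw [h]
        rw [Linear.smul_comp, Category.id_comp, Linear.comp_smul, K.oprj_oinc, h']
      exact hf
    nonneg := fun a Z g c h =>
      nonneg_aux F (simp0 K a) (simp0_good K a) () Z.P Z.good g c h
    nonneg1 := fun Z g c h => nonneg_aux F (Pre.unit K) F.hU () Z.P Z.good g c h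
    ne := by
      intro a h
      have h' : (𝟙 (K.S a)) = 0 := h
      have := hone a
      rw [h', map_zero] at this
      exact zero_ne_one this
    bound := by
      intro X Y f
      obtain ⟨M, r, hM, hr, he⟩ := h7 X.P.I Y.P.I (Fin K.n) X.P.s Y.P.s (mat X.P Y.P f)
        (fun i j h => F.m4 _ _ _ i j h)
      refine ⟨M, X, rea X.P X.P r, hM, ?_⟩
      apply F.inj _ _ X.good X.good
      refine (msub X.P X.P _ _).trans ?_
      refine Eq.trans ?_ (F.m2 X.P X.P X.P _ _ X.good).symm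
      rw [F.m6 _ _ _ X.good X.good, F.mrea _ _ _ X.good X.good hr, ← he]
      congr 1
      · refine (msmul X.P X.P _ _).trans ?_
        exact congrArg (fun z => (M : ℂ) • z) (F.m1 X.P X.good)
      · refine (F.m2 X.P Y.P X.P f _ Y.good).trans ?_
        rw [F.m6 _ _ _ X.good Y.good]
    dual := by
      intro W
      obtain ⟨W', R, hR⟩ := hdual W.P.X
      obtain ⟨m, s, inc, prj, h1, h2⟩ := K.dec W'
      exact ⟨⟨Pre.mk (K := K) W' (Fin m) inferInstance inferInstance s inc prj,
        Pre.Good.mk h1 h2⟩, R, fun X Z t ht => hR X.P.X Z.P.X t ht⟩ }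

end

theorem facts (hMat : TaskMat.{v, u}) (hTens : TaskTens.{v, u}) (hT1 : TaskT1.{v, u})
    (hT2 : TaskT2.{v, u}) (hT3 : TaskT3.{v, u}) (hPos : TaskPos) (hCompl : TaskCompl)
    {C : Type u} [Category.{v} C] [Preadditive C] [Linear ℂ C]
    [MonoidalCategory C] [MonoidalPreadditive C] [MonoidalLinear ℂ C] (K : Ctx C) : Facts K := by
  obtain ⟨m1, m2, m3, m4, m5, m6⟩ := hMat C K
  obtain ⟨hT, hU⟩ := hTens C K
  exact ⟨m1, m2, m3, m4, m5, m6, hT, hU, hT1 C K, hT2 C K, hT3 C K, hPos, hCompl⟩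

theorem main (hMat : TaskMat.{v, u}) (hTens : TaskTens.{v, u}) (hT1 : TaskT1.{v, u})
    (hT2 : TaskT2.{v, u}) (hT3 : TaskT3.{v, u}) (hPos : TaskPos) (hCompl : TaskCompl)
    (h6 : ∀ (D : Type (max u v 1))
      [Category.{v} D] [Preadditive D] [Linear ℂ D]
      [MonoidalCategory D] [MonoidalPreadditive D] [MonoidalLinear ℂ D] [BraidedCategory D]
      (A : CStarTensor D) (n : ℕ)
      (T : Fin n → D) (_ : A.Nice n T), ∀ X Y : D, A.dag (β_ X Y).hom = (β_ X Y).inv)
    (h7 : TaskB7) (h8 : TaskB8.{v, u})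
    (C : Type u) [Category.{v} C] [Preadditive C] [Linear ℂ C]
    [MonoidalCategory C] [MonoidalPreadditive C] [MonoidalLinear ℂ C] [RigidCategory C]
    [BraidedCategory C] (K : Ctx C) : IsUnitaryBraided C := by
  have F : Facts K := facts hMat hTens hT1 hT2 hT3 hPos hCompl K
  letI := monOb F.hT F.hU
  letI := brOb F
  haveI := monPre F
  haveI := monLin F
  refine ⟨Ob K, inferInstance, inferInstance, inferInstance, monOb F.hT F.hU, brOb F, cst F,
    forg K, forgBr F, inferInstance, inferInstance,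
    ⟨inferInstance, inferInstance, inferInstance⟩, ?_⟩
  exact h6 (Ob K) (cst F) K.n (Ts K) (nice F h7 (fun W => h8 C W))

end Pool.Agent.H110R3.UF.MainB
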