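import Pool.Agent.H110R3.UF.Stmts

/-! Definitions for MP_7857a6_al Q1 (braided fusion categories with unitary F-matrices). -/

open CategoryTheory MonoidalCategory CategoryTheory.Limits
open scoped Matrix Matrix.Norms.L2Operator

universe v u

namespace Pool.Agent.H110R3.UF

/-- The braided category `C` is unitary: it is (linearly, braided monoidally) equivalent to a
C*-tensor category with unitary braiding. -/
def IsUnitaryBraided (C : Type u) [Category.{v} C] [Preadditive C] [Linear ℂ C]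
    [MonoidalCategory C] [BraidedCategory C] : Prop :=
  ∃ (D : Type (max u v 1)) (_ : Category.{v} D) (_ : Preadditive D) (_ : Linear ℂ D)
    (_ : MonoidalCategory D) (_ : BraidedCategory D) (A : CStarTensor D) (F : D ⥤ C)
    (_ : F.Braided) (_ : F.Additive) (_ : F.Linear ℂ), F.IsEquivalence ∧
    ∀ X Y : D, A.dag (β_ X Y).hom = (β_ X Y).inv

/-- The properties of a C*-tensor category used in the proof. -/
structure CStarTensor.Nice {D : Type u} [Category.{v} D] [Preadditive D] [Linear ℂ D]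
    [MonoidalCategory D] (A : CStarTensor D) (n : ℕ) (T : Fin n → D) : Prop where
  dec : ∀ W : D, ∃ (m : ℕ) (s : Fin m → Fin n) (e : ∀ i, T (s i) ⟶ W),
    ∑ i, A.dag (e i) ≫ e i = 𝟙 W
  scal : ∀ a (f : T a ⟶ T a), ∃ c : ℂ, f = c • 𝟙 _
  scal1 : ∀ (f : 𝟙_ D ⟶ 𝟙_ D), ∃ c : ℂ, f = c • 𝟙 _
  nonneg : ∀ a (Z : D) (g : T a ⟶ Z) (c : ℂ), g ≫ A.dag g = c • 𝟙 _ → 0 ≤ c.re ∧ c.im = 0
  nonneg1 : ∀ (Z : D) (g : 𝟙_ D ⟶ Z) (c : ℂ), g ≫ A.dag g = c • 𝟙 _ → 0 ≤ c.re ∧ c.im = 0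
  ne : ∀ a, 𝟙 (T a) ≠ 0
  bound : ∀ (X Y : D) (f : X ⟶ Y), ∃ (M : ℝ) (Z : D) (g : X ⟶ Z), 0 ≤ M ∧
    (M : ℂ) • 𝟙 X - f ≫ A.dag f = g ≫ A.dag g
  dual : ∀ W : D, ∃ (W' : D) (R : 𝟙_ D ⟶ W ⊗ W'), ∀ (X Z : D) (t : X ⊗ W ⟶ Z),
    (ρ_ X).inv ≫ (X ◁ R) ≫ (α_ X W W').inv ≫ (t ▷ W') = 0 → t = 0

/-- Half-braidings on `X`. -/
structure HalfBr (D : Type u) [Category.{v} D] [MonoidalCategory D] (X : D) where
  σ : ∀ W : D, X ⊗ W ≅ W ⊗ X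
  nat : ∀ {W W' : D} (f : W ⟶ W'), (X ◁ f) ≫ (σ W').hom = (σ W).hom ≫ (f ▷ X)
  hex : ∀ Y W : D, (σ (Y ⊗ W)).hom = (α_ X Y W).inv ≫ ((σ Y).hom ▷ W) ≫ (α_ Y X W).hom ≫
    (Y ◁ (σ W).hom) ≫ (α_ Y W X).inv

section
variable {D : Type u} [Category.{v} D] [MonoidalCategory D]

/-- Insertion of `r : 1 → W ⊗ W'` to the right of `X`. -/
def ins (X W W' : D) (r : 𝟙_ D ⟶ W ⊗ W') : X ⟶ (X ⊗ W) ⊗ W' :=
  (ρ_ X).inv ≫ (X ◁ r) ≫ (α_ X W W').inv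

/-- Insertion followed by a half-braiding. -/
def insv {X : D} (H : HalfBr D X) (W W' : D) (r : 𝟙_ D ⟶ W ⊗ W') : X ⟶ (W ⊗ X) ⊗ W' :=
  ins X W W' r ≫ ((H.σ W).hom ▷ W')

/-- Nested insertion. -/
def nest (Y Y' W W' : D) (R : 𝟙_ D ⟶ Y ⊗ Y') (r : 𝟙_ D ⟶ W ⊗ W') :
    𝟙_ D ⟶ (Y ⊗ W) ⊗ (W' ⊗ Y') :=
  R ≫ (ins Y W W' r ▷ Y') ≫ (α_ (Y ⊗ W) W' Y').hom

/-- Reassociation. -/
def reas (X Y Y' W W' : D) : (Y ⊗ ((W ⊗ X) ⊗ W')) ⊗ Y' ⟶ ((Y ⊗ W) ⊗ X) ⊗ (W' ⊗ Y') :=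
  (((α_ Y (W ⊗ X) W').inv ≫ ((α_ Y W X).inv ▷ W')) ▷ Y') ≫ (α_ ((Y ⊗ W) ⊗ X) W' Y').hom
end

/-- B1: multiplicativity (diagrammatic identity in a monoidal category). -/
def TaskB1 : Prop := ∀ (D : Type u) [Category.{v} D] [MonoidalCategory D] (X : D)
  (H : HalfBr D X) (Y Y' W W' : D) (R : 𝟙_ D ⟶ Y ⊗ Y') (r : 𝟙_ D ⟶ W ⊗ W'),
  insv H (Y ⊗ W) (W' ⊗ Y') (nest Y Y' W W' R r) =
    insv H Y Y' R ≫ ((Y ◁ insv H W W' r) ▷ Y') ≫ reas X Y Y' W W'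

/-- B2: consequences for the adjoints. -/
def TaskB2 : Prop := TaskB1.{v, u} → ∀ (D : Type u) [Category.{v} D] [Preadditive D] [Linear ℂ D]
  [MonoidalCategory D] [MonoidalPreadditive D] [MonoidalLinear ℂ D] (A : CStarTensor D) (X : D)
  (H : HalfBr D X) (Y Y' W W' : D) (R : 𝟙_ D ⟶ Y ⊗ Y') (r : 𝟙_ D ⟶ W ⊗ W'),
  (∀ c : ℂ, insv H W W' r ≫ A.dag (insv H W W' r) = c • 𝟙 X →
    insv H (Y ⊗ W) (W' ⊗ Y') (nest Y Y' W W' R r) ≫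
      A.dag (insv H (Y ⊗ W) (W' ⊗ Y') (nest Y Y' W W' R r)) =
    c • (insv H Y Y' R ≫ A.dag (insv H Y Y' R))) ∧
  (∀ c : ℂ, r ≫ A.dag r = c • 𝟙 (𝟙_ D) →
    nest Y Y' W W' R r ≫ A.dag (nest Y Y' W W' R r) = c • (R ≫ A.dag R)) ∧
  (∀ c : ℂ, r ≫ A.dag r = c • 𝟙 (𝟙_ D) → ins X W W' r ≫ A.dag (ins X W W' r) = c • 𝟙 X)

/-- B3: uniform bound. -/
def TaskB3 : Prop := ∀ (D : Type u) [Category.{v} D] [Preadditive D] [Linear ℂ D]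
  [MonoidalCategory D] [MonoidalPreadditive D] [MonoidalLinear ℂ D] (A : CStarTensor D) (n : ℕ)
  (T : Fin n → D) (_ : A.Nice n T) (a : Fin n) (H : HalfBr D (T a)),
  ∃ M : ℝ, ∀ (W W' : D) (r : 𝟙_ D ⟶ W ⊗ W') (c c' : ℂ), r ≫ A.dag r = c • 𝟙 (𝟙_ D) →
    insv H W W' r ≫ A.dag (insv H W W' r) = c' • 𝟙 (T a) → c'.re ≤ M * c.re

/-- B4: comparison of the norms of the insertions. -/
def TaskB4 : Prop := TaskB2.{v, u} → TaskB3.{v, u} → ∀ (D : Type u) [Category.{v} D]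
  [Preadditive D] [Linear ℂ D]
  [MonoidalCategory D] [MonoidalPreadditive D] [MonoidalLinear ℂ D] (A : CStarTensor D) (n : ℕ)
  (T : Fin n → D) (_ : A.Nice n T) (a : Fin n) (H : HalfBr D (T a)) (Y Y' : D)
  (R : 𝟙_ D ⟶ Y ⊗ Y') (c c' : ℂ), R ≫ A.dag R = c • 𝟙 (𝟙_ D) →
    insv H Y Y' R ≫ A.dag (insv H Y Y' R) = c' • 𝟙 (T a) → c'.re ≤ c.re

/-- B5: the adjoint inverse half-braiding. -/
def TaskB5 : Prop := ∀ (D : Type u) [Category.{v} D] [Preadditive D] [Linear ℂ D]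
  [MonoidalCategory D] [MonoidalPreadditive D] [MonoidalLinear ℂ D] (A : CStarTensor D) (X : D)
  (H : HalfBr D X), ∃ H' : HalfBr D X, ∀ W, (H'.σ W).hom = A.dag (H.σ W).inv

/-- B6: conclusion in the C*-tensor category. -/
def TaskB6 : Prop := TaskB2.{v, u} → TaskB4.{v, u} → TaskB5.{v, u} → ∀ (D : Type u)
  [Category.{v} D] [Preadditive D] [Linear ℂ D]
  [MonoidalCategory D] [MonoidalPreadditive D] [MonoidalLinear ℂ D] [BraidedCategory D]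
  (A : CStarTensor D) (n : ℕ)
  (T : Fin n → D) (_ : A.Nice n T), ∀ X Y : D, A.dag (β_ X Y).hom = (β_ X Y).inv

/-- B7: bounded matrices. -/
def TaskB7 : Prop := ∀ (I J L : Type) [Fintype I] [DecidableEq I] [Fintype J] [DecidableEq J]
  [DecidableEq L] (s : I → L) (t : J → L) (m : Matrix I J ℂ), (∀ i j, s i ≠ t j → m i j = 0) →
  ∃ (M : ℝ) (r : Matrix I I ℂ), 0 ≤ M ∧ (∀ i j, s i ≠ s j → r i j = 0) ∧
    (M : ℂ) • (1 : Matrix I I ℂ) - m * mᴴ = r * rᴴ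

/-- B8: duals in a fusion category. -/
def TaskB8 : Prop := ∀ (C : Type u) [Category.{v} C] [Preadditive C] [MonoidalCategory C]
  [MonoidalPreadditive C] [RigidCategory C] (W : C),
  ∃ (W' : C) (R : 𝟙_ C ⟶ W ⊗ W'), ∀ (X Z : C) (t : X ⊗ W ⟶ Z),
    (ρ_ X).inv ≫ (X ◁ R) ≫ (α_ X W W').inv ≫ (t ▷ W') = 0 → t = 0

end Pool.Agent.H110R3.UF
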